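import Mathlib

/-!
# The Krull step of the local structure of the ideal of relations
-/

set_option autoImplicit false
set_option linter.unusedSectionVars false

open Finset IsLocalRing

namespace Pool.Agent.Helper52.NS

variable {Q : Type*} [CommRing Q] [Algebra ℂ Q] [IsLocalRing Q]

/-- The Euler field of a frame. -/
noncomputable def Th {N : ℕ} (b : Fin N → Q) (D : Fin N → Derivation ℂ Q Q) (v : Q) : Q :=
  ∑ i, b i * D i v

lemma Th_add {N : ℕ} (b : Fin N → Q) (D : Fin N → Derivation ℂ Q Q) (v w : Q) :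
    Th b D (v + w) = Th b D v + Th b D w := by
  simp only [Th, map_add, mul_add, Finset.sum_add_distrib]

lemma Th_zero {N : ℕ} (b : Fin N → Q) (D : Fin N → Derivation ℂ Q Q) : Th b D 0 = 0 := by
  simp [Th]

lemma Th_sum {N : ℕ} (b : Fin N → Q) (D : Fin N → Derivation ℂ Q Q) {n : ℕ} (v : Fin n → Q) :
    Th b D (∑ k, v k) = ∑ k, Th b D (v k) := by
  simp only [Th, map_sum, Finset.mul_sum]
  exact Finset.sum_comm

lemma Th_mul {N : ℕ} (b : Fin N → Q) (D : Fin N → Derivation ℂ Q Q) (v w : Q) :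
    Th b D (v * w) = v * Th b D w + w * Th b D v := by
  simp only [Th, Derivation.leibniz, smul_eq_mul, Finset.mul_sum, ← Finset.sum_add_distrib]
  exact Finset.sum_congr rfl fun i _ => by ring

lemma Th_mem {N : ℕ} {b : Fin N → Q} (hb : ∀ i, b i ∈ maximalIdeal Q)
    (D : Fin N → Derivation ℂ Q Q) (v : Q) : Th b D v ∈ maximalIdeal Q :=
  Ideal.sum_mem _ fun i _ => Ideal.mul_mem_right _ _ (hb i)

lemma Th_pow {B : Ideal Q} (hB : B ≤ maximalIdeal Q) {N : ℕ} {b : Fin N → Q}
    (hb : Ideal.span (Set.range b) = maximalIdeal Q) {D : Fin N → Derivation ℂ Q Q} {Δ : Q}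
    (hDb : ∀ i k, D i (b k) - (if i = k then Δ else 0) ∈ B) (r : ℕ) :
    ∀ v ∈ maximalIdeal Q ^ r, Th b D v - (r : Q) * (Δ * v) ∈ maximalIdeal Q ^ (r + 1) := by
  have hbm : ∀ i, b i ∈ maximalIdeal Q := fun i => hb ▸ Ideal.subset_span ⟨i, rfl⟩
  -- the degree one case
  have h1 : ∀ x ∈ maximalIdeal Q, Th b D x - Δ * x ∈ maximalIdeal Q ^ 2 := by
    intro x hx
    rw [← hb] at hx
    obtain ⟨c, rfl⟩ := (Ideal.mem_span_range_iff_exists_fun).1 hx
    have e : Th b D (∑ i, c i * b i) - Δ * ∑ i, c i * b i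
        = ∑ k, (b k * Th b D (c k) + c k * ∑ i, b i * (D i (b k) - (if i = k then Δ else 0))) := by
      rw [Th_sum, Finset.mul_sum, ← Finset.sum_sub_distrib]
      refine Finset.sum_congr rfl fun k _ => ?_
      rw [Th_mul]
      have : ∑ i, b i * (D i (b k) - (if i = k then Δ else 0)) = Th b D (b k) - b k * Δ := by
        simp only [mul_sub, Finset.sum_sub_distrib, Th]
        simp
      rw [this]
      ring
    rw [e]
    refine Ideal.sum_mem _ fun k _ => Ideal.add_mem _ ?_ ?_
    · rw [pow_two]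
      exact Ideal.mul_mem_mul (hbm k) (Th_mem hbm D _)
    · refine Ideal.mul_mem_left _ _ (Ideal.sum_mem _ fun i _ => ?_)
      rw [pow_two]
      exact Ideal.mul_mem_mul (hbm i) (hB (hDb i k))
  induction r with
  | zero =>
    intro v _
    simpa using Th_mem hbm D v
  | succ r ih =>
    intro v hv
    rw [pow_succ] at hv
    refine Submodule.mul_induction_on hv ?_ ?_
    · intro x hx y hy
      have e : Th b D (x * y) - ((r + 1 : ℕ) : Q) * (Δ * (x * y))
          = x * (Th b D y - Δ * y) + y * (Th b D x - (r : Q) * (Δ * x)) := by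
        rw [Th_mul]
        push_cast
        ring
      rw [e]
      refine Ideal.add_mem _ ?_ ?_
      · have := Ideal.mul_mem_mul hx (h1 y hy)
        rwa [← pow_add] at this
      · have := Ideal.mul_mem_mul hy (ih x hx)
        rwa [← pow_succ'] at this
    · intro x y hx hy
      have e : Th b D (x + y) - ((r + 1 : ℕ) : Q) * (Δ * (x + y))
          = (Th b D x - ((r + 1 : ℕ) : Q) * (Δ * x))
            + (Th b D y - ((r + 1 : ℕ) : Q) * (Δ * y)) := by
        rw [Th_add]
        ring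
      rw [e]
      exact Ideal.add_mem _ hx hy

/-- The Krull step. -/
theorem krull [IsNoetherianRing Q] {B : Ideal Q} (hB : B ≤ maximalIdeal Q) {N : ℕ}
    {b : Fin N → Q} (hb : Ideal.span (Set.range b) = maximalIdeal Q)
    {D : Fin N → Derivation ℂ Q Q} (hD : ∀ i, ∀ g ∈ B, D i g ∈ B) {Δ : Q} (hΔ : IsUnit Δ)
    (hDb : ∀ i k, D i (b k) - (if i = k then Δ else 0) ∈ B) : B = ⊥ := by
  have hbm : ∀ i, b i ∈ maximalIdeal Q := fun i => hb ▸ Ideal.subset_span ⟨i, rfl⟩
  have key : ∀ r : ℕ, B ≤ maximalIdeal Q ^ (r + 1) := by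
    intro r
    induction r with
    | zero => simpa using hB
    | succ r ih =>
      intro g hg
      have h1 := Th_pow hB hb hDb (r + 1) g (ih hg)
      have h2 : Th b D g ∈ maximalIdeal Q ^ (r + 1 + 1) := by
        refine Ideal.sum_mem _ fun i _ => ?_
        rw [pow_succ']
        exact Ideal.mul_mem_mul (hbm i) (ih (hD i g hg))
      have h3 : ((r + 1 : ℕ) : Q) * (Δ * g) ∈ maximalIdeal Q ^ (r + 1 + 1) := by
        have := Ideal.sub_mem _ h2 h1
        simpa using this
      have hu : IsUnit (((r + 1 : ℕ) : Q) * Δ) := by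
        refine IsUnit.mul ?_ hΔ
        have : (((r + 1 : ℕ) : Q)) = algebraMap ℂ Q ((r + 1 : ℕ) : ℂ) := by simp
        rw [this]
        refine IsUnit.map _ (IsUnit.mk0 _ ?_)
        exact_mod_cast Nat.succ_ne_zero r
      obtain ⟨w, hw⟩ := hu.exists_left_inv
      have : g = w * (((r + 1 : ℕ) : Q) * (Δ * g)) := by
        calc g = (w * (((r + 1 : ℕ) : Q) * Δ)) * g := by rw [hw, one_mul]
          _ = _ := by ring
      rw [this]
      exact Ideal.mul_mem_left _ _ h3
  rw [eq_bot_iff, ← Ideal.iInf_pow_eq_bot_of_isLocalRing (maximalIdeal Q)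
    (Ideal.IsPrime.ne_top inferInstance)]
  refine le_iInf fun r => ?_
  exact (key r).trans (Ideal.pow_le_pow_right (Nat.le_succ r))

end Pool.Agent.Helper52.NS
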